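import Pool.Agent.Q195.LZ1

set_option autoImplicit false

open Pool.Agent.Q195.LZ

namespace Pool.Agent.Results.MP_c77635_an.NoLorentzSqueeze

/-- A bidemocratic basis of `ℓ₂` for which no `ℓ_{2,q}` with `q > 1` embeds in `ℓ₂` via the
basis. -/
theorem result : ∀ (𝕜 : Type) [RCLike 𝕜], ∃ x y : ℕ → lp (fun _ : ℕ => 𝕜) 2,
    IsBasis 𝕜 x y ∧ IsBidemocratic 𝕜 x y ∧ ∀ q : ℝ, 1 < q → ¬ EmbedsLow q x 𝕜 := by
  intro 𝕜 _
  exact ⟨x, y, isBasis, isBidemocratic, fun q hq => not_embeds q hq⟩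

end Pool.Agent.Results.MP_c77635_an.NoLorentzSqueeze
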